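import Pool.Agent.H27.G.R_seed8.H328R9.RG_E
import Pool.Agent.H27.G.R_seed8.H241R2.RZ2_C3

set_option autoImplicit false

/-! Project RG, task CC1: the primitive character. -/

namespace Pool.Agent.H328R9.RG

open Finset Filter Topology MeasureTheory
open Pool.Agent.H306R2.RZ Pool.Agent.H306R2.RG
open Pool.Agent.H241R2.RZC3 (ft_one prim_of)

noncomputable section

theorem js_mod (n d : ℕ) : js ((n % d : ℕ) : ℤ) d = js (n : ℤ) d := by
  unfold js
  rw [jacobiSym.mod_left, jacobiSym.mod_left (n : ℤ)]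
  congr 2
  rw [Int.natCast_mod]
  exact Int.emod_emod_of_dvd _ dvd_rfl

theorem js_mod_mul (n r d : ℕ) : js ((n % (r * d) : ℕ) : ℤ) d = js (n : ℤ) d := by
  rw [← js_mod (n % (r * d)) d, ← js_mod n d, Nat.mod_mod_of_dvd _ (Dvd.intro_left r rfl)]

theorem E_mod_mul {r : ℕ} {E : ℕ → ℝ} {gc gs : ℝ} (h : PE r E gc gs) (n d : ℕ) :
    E (n % (r * d)) = E n := by
  have h1 : n = n % (r * d) + (d * (n / (r * d))) * r := by
    conv_lhs => rw [← Nat.mod_add_div n (r * d)]
    ring
  conv_rhs => rw [h1]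
  rw [h.per]

theorem js_ncop (n d : ℕ) (hd : d ≠ 0) (h : ¬ n.Coprime d) : js (n : ℤ) d = 0 := by
  have : NeZero d := ⟨hd⟩
  unfold js
  have : jacobiSym (n : ℤ) d = 0 := by
    rw [jacobiSym.eq_zero_iff_not_coprime]
    intro h1
    exact h h1
  rw [this]
  simp

theorem js_cop (n d : ℕ) (h : n.Coprime d) : js (n : ℤ) d = 1 ∨ js (n : ℤ) d = -1 := by
  have h1 : jacobiSym (n : ℤ) d = 1 ∨ jacobiSym (n : ℤ) d = -1 :=
    jacobiSym.eq_one_or_neg_one (by simpa using h)
  unfold js
  rcases h1 with h1 | h1 <;> rw [h1] <;> simp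

/-- the character with the values `E n * (n|d)` -/
def chr {r : ℕ} {E : ℕ → ℝ} {gc gs : ℝ} (h : PE r E gc gs) (d : ℕ) (hrd : r * d ≠ 0) :
    DirichletCharacter ℂ (r * d) where
  toFun x := ((E x.val * js (x.val : ℤ) d : ℝ) : ℂ)
  map_one' := by
    have h0 : NeZero (r * d) := ⟨hrd⟩
    have h1 : ((1 : ZMod (r * d)).val) = 1 % (r * d) := by
      have := ZMod.val_natCast (r * d) 1
      rwa [Nat.cast_one] at this
    rw [h1, E_mod_mul h, js_mod_mul, h.one]
    rw [show ((1 : ℕ) : ℤ) = 1 by norm_num, js_1]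
    norm_num
  map_mul' := by
    intro x y
    have h0 : NeZero (r * d) := ⟨hrd⟩
    rw [ZMod.val_mul, E_mod_mul h, js_mod_mul, h.mul]
    push_cast
    rw [js_mul]
    push_cast
    ring
  map_nonunit' := by
    intro x hx
    have h0 : NeZero (r * d) := ⟨hrd⟩
    have h1 : ¬ x.val.Coprime (r * d) := by
      intro h2
      apply hx
      rw [← ZMod.natCast_zmod_val x]
      exact (ZMod.isUnit_iff_coprime _ _).2 h2
    rw [Nat.coprime_mul_iff_right, not_and_or] at h1
    rcases h1 with h1 | h1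
    · rw [h.ncop _ h1]; norm_num
    · rw [js_ncop _ _ (by rintro rfl; simp at hrd) h1]; norm_num

theorem chr_val {r : ℕ} {E : ℕ → ℝ} {gc gs : ℝ} (h : PE r E gc gs) (d : ℕ) (hrd : r * d ≠ 0) (n : ℕ) :
    chr h d hrd (n : ZMod (r * d)) = ((E n * js (n : ℤ) d : ℝ) : ℂ) := by
  have h0 : NeZero (r * d) := ⟨hrd⟩
  show ((E ((n : ZMod (r * d)).val) * js (((n : ZMod (r * d)).val : ℕ) : ℤ) d : ℝ) : ℂ) = _
  rw [ZMod.val_natCast, E_mod_mul h, js_mod_mul]

theorem prim {r : ℕ} {E : ℕ → ℝ} {gc gs : ℝ} (h : PE r E gc gs) (d : ℕ) (hrd : r * d ≠ 0)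
    (hd : Odd d) (hs : Squarefree d) : (chr h d hrd).IsPrimitive := by
  have h0 : NeZero (r * d) := ⟨hrd⟩
  refine prim_of _ fun q hq m hm hft => ?_
  have key : ∀ a : ℕ, a.Coprime r → a.Coprime d → (a : ZMod m) = 1 → E a * js (a : ℤ) d = -1 →
      False := by
    intro a hc1 hc2 ha hj
    have h1 := ft_one _ hft a (Nat.Coprime.mul_right hc1 hc2) ha
    rw [chr_val, hj] at h1
    norm_num at h1
  have hr8 : r ∣ 2 ^ 3 := by
    rcases h.hr with hr | hr | hr <;> rw [hr] <;> norm_num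
  have hcopr : ∀ t : ℕ, Odd t → t.Coprime r := fun t ht =>
    Nat.Coprime.coprime_dvd_right hr8 (Nat.Coprime.pow_right 3 (Nat.coprime_two_right.2 ht))
  by_cases hq2 : q = 2
  · subst hq2
    have hr1 : r ≠ 1 := by
      rintro rfl
      rw [one_mul] at hm
      rw [hm] at hd
      exact absurd hd (by rw [Nat.not_odd_iff_even]; exact ⟨m, by ring⟩)
    have hr2 : r = 2 * (r / 2) ∧ Even (r / 2) := by
      rcases h.hr with hr | hr | hr
      · exact absurd hr hr1
      · rw [hr]; exact ⟨by norm_num, by decide⟩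
      · rw [hr]; exact ⟨by norm_num, by decide⟩
    have hm4 : m = r / 2 * d := by
      have h1 : m * 2 = (r / 2 * d) * 2 := by
        rw [← hm]
        conv_lhs => rw [hr2.1]
        ring
      omega
    have hodd : Odd (1 + r / 2 * d) := by
      rw [add_comm]
      exact (hr2.2.mul_right d).add_one
    have hcod : (1 + r / 2 * d).Coprime d := by simp
    refine key (1 + r / 2 * d) (hcopr _ hodd) hcod ?_ ?_
    · rw [hm4]
      rw [Nat.cast_add, ZMod.natCast_self, add_zero, Nat.cast_one]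
    · rw [h.half d hd hr1]
      have h2 : js ((1 + r / 2 * d : ℕ) : ℤ) d = 1 := by
        rw [← js_mod, Nat.add_mul_mod_self_right, js_mod]
        rw [show ((1 : ℕ) : ℤ) = 1 by norm_num, js_1]
      rw [h2, mul_one]
  · have hqd : q ∣ d := by
      have h1 : q ∣ r * d := ⟨m, by rw [hm, mul_comm]⟩
      rcases (Nat.Prime.dvd_mul hq).1 h1 with h | h
      · exfalso
        exact hq2 ((Nat.prime_dvd_prime_iff_eq hq Nat.prime_two).1 (hq.dvd_of_dvd_pow (h.trans hr8)))
      · exact h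
    obtain ⟨e, he⟩ := hqd
    have hm8 : m = r * e := by
      have h1 : m * q = (r * e) * q := by rw [← hm, he]; ring
      exact Nat.eq_of_mul_eq_mul_right hq.pos h1
    have hqe : q.Coprime e := by
      rw [he] at hs
      exact (Nat.squarefree_mul_iff.1 hs).1
    have hqodd : Odd q := hq.odd_of_ne_two hq2
    have heodd : Odd e := by
      rw [he] at hd
      exact (Nat.odd_mul.1 hd).2
    have hco8 : (r * e).Coprime q := Nat.Coprime.mul_left (hcopr q hqodd).symm hqe.symm
    have : Fact q.Prime := ⟨hq⟩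
    obtain ⟨g, hg⟩ : ∃ g : ZMod q, ¬ IsSquare g :=
      FiniteField.exists_nonsquare (by rw [ZMod.ringChar_zmod_n]; exact hq2)
    obtain ⟨a, ha1, ha2⟩ := Nat.chineseRemainder hco8 1 g.val
    have hag : ((a : ℕ) : ZMod q) = g := by
      have h3 := (ZMod.natCast_eq_natCast_iff _ _ _).2 ha2
      rw [h3, ZMod.natCast_zmod_val]
    have hg0 : g ≠ 0 := by
      rintro rfl
      exact hg (IsSquare.zero)
    have hcoq : a.Coprime q := by
      rw [Nat.coprime_comm, Nat.Prime.coprime_iff_not_dvd hq]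
      intro h4
      apply hg0
      rw [← hag]
      exact (ZMod.natCast_eq_zero_iff _ _).2 h4
    have hcoe : a.Coprime e := by
      have h5 : a ≡ 1 [MOD e] := Nat.ModEq.of_dvd ⟨r, by ring⟩ ha1
      have h6 := h5.gcd_eq
      rw [Nat.gcd_one_left] at h6
      exact h6
    have hcor : a.Coprime r := by
      have h5 : a ≡ 1 [MOD r] := Nat.ModEq.of_dvd ⟨e, by ring⟩ ha1
      have h6 := h5.gcd_eq
      rw [Nat.gcd_one_left] at h6
      exact h6
    have hj1 : jacobiSym (a : ℤ) q = -1 := by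
      rw [← jacobiSym.legendreSym.to_jacobiSym, legendreSym.eq_neg_one_iff]
      have h7 : ((a : ℤ) : ZMod q) = g := by
        rw [Int.cast_natCast, hag]
      rw [h7]
      exact hg
    have hj2 : jacobiSym (a : ℤ) e = 1 := by
      have h5 : a ≡ 1 [MOD e] := Nat.ModEq.of_dvd ⟨r, by ring⟩ ha1
      have h9 : jacobiSym (a : ℤ) e = jacobiSym 1 e := by
        apply jacobiSym.mod_left'
        exact_mod_cast h5
      rw [h9, jacobiSym.one_left]
    have hEa : E a = 1 := by
      have h5 : a ≡ 1 [MOD r] := Nat.ModEq.of_dvd ⟨e, by ring⟩ ha1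
      have h6 : E (a % (r * 1)) = E (1 % (r * 1)) := by
        rw [mul_one]
        exact congrArg E h5
      rw [E_mod_mul h, E_mod_mul h, h.one] at h6
      exact h6
    refine key a hcor ?_ ?_ ?_
    · rw [he]
      exact Nat.Coprime.mul_right hcoq hcoe
    · rw [hm8]
      have h6 := (ZMod.natCast_eq_natCast_iff _ _ _).2 ha1
      rw [h6]
      simp
    · have : NeZero q := ⟨hq.ne_zero⟩
      have : NeZero e := ⟨heodd.pos.ne'⟩
      rw [hEa, he]
      unfold js
      rw [jacobiSym.mul_right, hj1, hj2]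
      norm_num

/-- the character of a family at `d` -/
theorem CC1 (φ : FD) (hφ : Fam φ) (d : ℕ) (hd : φ.A d) (hs : Squarefree d) :
    0 < d ∧ ∃ χ : DirichletCharacter ℂ (φ.r * d), χ.IsPrimitive ∧ χ ^ 2 = 1 ∧ χ ≠ 1 ∧
      (∀ n : ℕ, n ≠ 0 → χ (n : ZMod (φ.r * d)) = ((cf φ d n : ℝ) : ℂ)) ∧
      χ (-1) = if φ.a = 0 then 1 else -1 := by
  obtain ⟨E, gc, gs, hc, hs', D⟩ := data φ hφ d hd
  have hd0 : 0 < d := D.odd.pos
  have hr0 : 0 < φ.r := by
    rcases D.pe.hr with h | h | h <;> omega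
  have hrd : φ.r * d ≠ 0 := by positivity
  have h0 : NeZero (φ.r * d) := ⟨hrd⟩
  have hprim := prim D.pe d hrd D.odd hs
  refine ⟨hd0, chr D.pe d hrd, hprim, ?_, ?_, ?_, ?_⟩
  · ext u
    have h1 := chr_val D.pe d hrd (u : ZMod (φ.r * d)).val
    rw [ZMod.natCast_zmod_val] at h1
    rw [MulChar.pow_apply_coe, MulChar.one_apply_coe, h1]
    have hu : ((u : ZMod (φ.r * d)).val).Coprime (φ.r * d) := ZMod.val_coe_unit_coprime u
    have hu1 := Nat.Coprime.coprime_mul_right_right hu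
    have hu2 := Nat.Coprime.coprime_mul_left_right hu
    have h2 : (E ((u : ZMod (φ.r * d)).val) * js (((u : ZMod (φ.r * d)).val : ℕ) : ℤ) d) ^ 2 = 1 := by
      rcases D.pe.cop _ hu1 with h3 | h3 <;> rcases js_cop _ _ hu2 with h4 | h4 <;>
        rw [h3, h4] <;> norm_num
    exact_mod_cast h2
  · intro h1
    rw [h1] at hprim
    have h2 : (1 : DirichletCharacter ℂ (φ.r * d)).conductor = φ.r * d := hprim
    rw [DirichletCharacter.conductor_one] at h2
    exact D.ne1 h2.symm
  · intro n hn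
    rw [chr_val, D.val n hn]
  · have h1 : (-1 : ZMod (φ.r * d)) = ((φ.r * d - 1 : ℕ) : ZMod (φ.r * d)) := by
      rw [Nat.cast_sub (by omega), ZMod.natCast_self]
      simp
    rw [h1, chr_val]
    have h2 : E (φ.r * d - 1) = E (φ.r - 1) := by
      have h3 : φ.r * d - 1 = (φ.r - 1) + (d - 1) * φ.r := by
        obtain ⟨k, rfl⟩ : ∃ k, d = k + 1 := ⟨d - 1, by omega⟩
        rw [Nat.add_sub_cancel, mul_add, mul_one, mul_comm φ.r k]
        omega
      rw [h3, D.pe.per]
    have h4 : js ((φ.r * d - 1 : ℕ) : ℤ) d = js (-1) d := by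
      unfold js
      have : jacobiSym ((φ.r * d - 1 : ℕ) : ℤ) d = jacobiSym (-1) d := by
        rw [jacobiSym.mod_left, jacobiSym.mod_left (-1)]
        congr 1
        rw [Nat.cast_sub (by omega)]
        push_cast
        rw [sub_eq_add_neg, add_comm, Int.add_mul_emod_self_right]
      rw [this]
    rw [h2, h4]
    rcases D.a01 with ha | ha
    · rw [(D.a0 ha).2.2, if_pos ha]
      norm_num
    · rw [(D.a1 ha).2.2, if_neg (by omega)]
      norm_num

end

end Pool.Agent.H328R9.RG
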