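import Pool.Agent.H27.G.R_seed8.H306R2.RG.Defs
import Pool.Agent.H27.G.R_seed8.H60R2.RZ2_C1

set_option autoImplicit false

/-! Project RG, common part of the tasks CC1 and CC2: the factor modulo `r` of the characters. -/

namespace Pool.Agent.H328R9.RG

open Finset Filter Topology MeasureTheory
open Pool.Agent.H306R2.RZ Pool.Agent.H306R2.RG
open Pool.Agent.H987R2.RZ (P2 P3 sum_crt Cs Sn Gk_eq Sn_zero Cs_zero js_sq_one)
open Pool.Agent.H60R2.RZC1 (Gk_sqf tc ts cs_eighth)

noncomputable section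

/-- a primitive real character modulo `r`, `r = 1, 4, 8` -/
structure PE (r : ℕ) (E : ℕ → ℝ) (gc gs : ℝ) : Prop where
  hr : r = 1 ∨ r = 4 ∨ r = 8
  mul : ∀ a b, E (a * b) = E a * E b
  per : ∀ a b, E (a + b * r) = E a
  one : E 1 = 1
  cop : ∀ a, a.Coprime r → E a = 1 ∨ E a = -1
  ncop : ∀ a, ¬ a.Coprime r → E a = 0
  half : ∀ d, Odd d → r ≠ 1 → E (1 + r / 2 * d) = -1
  gaussc : ∀ n : ℕ, ∑ a ∈ range r, E a * Real.cos (2 * Real.pi * (a * n : ℕ) / r) = gc * E n
  gausss : ∀ n : ℕ, ∑ a ∈ range r, E a * Real.sin (2 * Real.pi * (a * n : ℕ) / r) = gs * E n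

def E8 (a : ℕ) : ℝ := ((ZMod.χ₈ (a : ZMod 8) : ℤ) : ℝ)
def E8' (a : ℕ) : ℝ := ((ZMod.χ₈' (a : ZMod 8) : ℤ) : ℝ)
def E4 (a : ℕ) : ℝ := ((ZMod.χ₄ (a : ZMod 4) : ℤ) : ℝ)

theorem PE1 : PE 1 (fun _ => 1) 1 0 where
  hr := Or.inl rfl
  mul := by intro a b; norm_num
  per := by intro a b; rfl
  one := rfl
  cop := by intro a _; exact Or.inl rfl
  ncop := by intro a h; exact absurd (Nat.coprime_one_right a) h
  half := by intro d _ h; exact absurd rfl h
  gaussc := by intro n; simp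
  gausss := by intro n; simp

theorem cop8 (a : ℕ) : a.Coprime 8 ↔ a % 2 = 1 := by
  rw [show (8 : ℕ) = 2 ^ 3 by norm_num, Nat.coprime_pow_right_iff (by norm_num),
    Nat.coprime_two_right, Nat.odd_iff]

theorem cop4 (a : ℕ) : a.Coprime 4 ↔ a % 2 = 1 := by
  rw [show (4 : ℕ) = 2 ^ 2 by norm_num, Nat.coprime_pow_right_iff (by norm_num),
    Nat.coprime_two_right, Nat.odd_iff]

theorem E8_mod (a : ℕ) : E8 a = E8 (a % 8) := by
  unfold E8
  rw [ZMod.natCast_mod]

theorem E8'_mod (a : ℕ) : E8' a = E8' (a % 8) := by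
  unfold E8'
  rw [ZMod.natCast_mod]

theorem E4_mod (a : ℕ) : E4 a = E4 (a % 4) := by
  unfold E4
  rw [ZMod.natCast_mod]

theorem E8_val (a : ℕ) : E8 a = if a % 8 = 1 ∨ a % 8 = 7 then 1 else if a % 8 = 3 ∨ a % 8 = 5 then -1 else 0 := by
  rw [E8_mod]
  have hlt : a % 8 < 8 := Nat.mod_lt _ (by norm_num)
  generalize a % 8 = r at hlt
  unfold E8
  rw [ZMod.χ₈_nat_eq_if_mod_eight]
  interval_cases r <;> simp

theorem E8'_val (a : ℕ) : E8' a = if a % 8 = 1 ∨ a % 8 = 3 then 1 else if a % 8 = 5 ∨ a % 8 = 7 then -1 else 0 := by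
  rw [E8'_mod]
  have hlt : a % 8 < 8 := Nat.mod_lt _ (by norm_num)
  generalize a % 8 = r at hlt
  unfold E8'
  rw [ZMod.χ₈'_nat_eq_if_mod_eight]
  interval_cases r <;> simp

theorem E4_val (a : ℕ) : E4 a = if a % 4 = 1 then 1 else if a % 4 = 3 then -1 else 0 := by
  rw [E4_mod]
  have hlt : a % 4 < 4 := Nat.mod_lt _ (by norm_num)
  generalize a % 4 = r at hlt
  unfold E4
  rw [ZMod.χ₄_nat_eq_if_mod_four]
  interval_cases r <;> simp

theorem E4_1 (m : ℕ) (h : m % 4 = 1) : E4 m = 1 := by rw [E4_val, if_pos h]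

theorem E4_3 (m : ℕ) (h : m % 4 = 3) : E4 m = -1 := by rw [E4_val, if_neg (by omega), if_pos h]

theorem tcs (m : ℕ) : Real.cos (2 * Real.pi * m / 8) = tc (m % 8) ∧
    Real.sin (2 * Real.pi * m / 8) = ts (m % 8) := cs_eighth m

theorem tcs' (a n : ℕ) : Real.cos (2 * Real.pi * (a * n : ℕ) / (8 : ℕ)) = tc (a * (n % 8) % 8) ∧
    Real.sin (2 * Real.pi * (a * n : ℕ) / (8 : ℕ)) = ts (a * (n % 8) % 8) := by
  have := cs_eighth (a * n)
  rw [Nat.mul_mod a n, Nat.mul_mod a (n % 8), Nat.mod_mod] at *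
  exact_mod_cast this

theorem tcs4 (a n : ℕ) : Real.cos (2 * Real.pi * (a * n : ℕ) / (4 : ℕ)) = tc (2 * (a * (n % 4)) % 8) ∧
    Real.sin (2 * Real.pi * (a * n : ℕ) / (4 : ℕ)) = ts (2 * (a * (n % 4)) % 8) := by
  have h := cs_eighth (2 * (a * n))
  have h1 : 2 * (a * n) % 8 = 2 * (a * (n % 4)) % 8 := by
    have h2 : a * n = a * (n % 4) + 4 * (a * (n / 4)) := by
      conv_lhs => rw [← Nat.mod_add_div n 4]
      ring
    omega
  rw [h1] at h
  have h3 : 2 * Real.pi * ((a * n : ℕ) : ℝ) / ((4 : ℕ) : ℝ) = 2 * Real.pi * ((2 * (a * n) : ℕ) : ℝ) / 8 := by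
    push_cast
    ring
  rw [h3]
  exact h

theorem PE8 : PE 8 E8 (2 * Real.sqrt 2) 0 where
  hr := Or.inr (Or.inr rfl)
  mul := by
    intro a b
    unfold E8
    push_cast
    rw [map_mul]
    push_cast
    rfl
  per := by
    intro a b
    rw [E8_mod, E8_mod a, Nat.add_mul_mod_self_right]
  one := by rw [E8_val]; norm_num
  cop := by
    intro a h
    rw [cop8] at h
    rw [E8_val]
    have : a % 8 = 1 ∨ a % 8 = 3 ∨ a % 8 = 5 ∨ a % 8 = 7 := by omega
    rcases this with h | h | h | h <;> simp [h]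
  ncop := by
    intro a h
    rw [cop8] at h
    rw [E8_val, if_neg (by omega), if_neg (by omega)]
  half := by
    intro d hd _
    rw [E8_val, if_neg, if_pos]
    · obtain ⟨k, hk⟩ := hd; omega
    · obtain ⟨k, hk⟩ := hd; omega
  gaussc := by
    intro n
    simp only [(tcs' _ _).1]
    rw [E8_mod n]
    have hlt : n % 8 < 8 := Nat.mod_lt _ (by norm_num)
    generalize n % 8 = r at hlt
    simp only [E8_val, Finset.sum_range_succ, Finset.sum_range_zero]
    interval_cases r <;> norm_num [tc, ts] <;> ring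
  gausss := by
    intro n
    simp only [(tcs' _ _).2]
    rw [E8_mod n]
    have hlt : n % 8 < 8 := Nat.mod_lt _ (by norm_num)
    generalize n % 8 = r at hlt
    simp only [E8_val, Finset.sum_range_succ, Finset.sum_range_zero]
    interval_cases r <;> norm_num [tc, ts]

theorem PE8' : PE 8 E8' 0 (2 * Real.sqrt 2) where
  hr := Or.inr (Or.inr rfl)
  mul := by
    intro a b
    unfold E8'
    push_cast
    rw [map_mul]
    push_cast
    rfl
  per := by
    intro a b
    rw [E8'_mod, E8'_mod a, Nat.add_mul_mod_self_right]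
  one := by rw [E8'_val]; norm_num
  cop := by
    intro a h
    rw [cop8] at h
    rw [E8'_val]
    have : a % 8 = 1 ∨ a % 8 = 3 ∨ a % 8 = 5 ∨ a % 8 = 7 := by omega
    rcases this with h | h | h | h <;> simp [h]
  ncop := by
    intro a h
    rw [cop8] at h
    rw [E8'_val, if_neg (by omega), if_neg (by omega)]
  half := by
    intro d hd _
    rw [E8'_val, if_neg, if_pos]
    · obtain ⟨k, hk⟩ := hd; omega
    · obtain ⟨k, hk⟩ := hd; omega
  gaussc := by
    intro n
    simp only [(tcs' _ _).1]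
    rw [E8'_mod n]
    have hlt : n % 8 < 8 := Nat.mod_lt _ (by norm_num)
    generalize n % 8 = r at hlt
    simp only [E8'_val, Finset.sum_range_succ, Finset.sum_range_zero]
    interval_cases r <;> norm_num [tc, ts]
  gausss := by
    intro n
    simp only [(tcs' _ _).2]
    rw [E8'_mod n]
    have hlt : n % 8 < 8 := Nat.mod_lt _ (by norm_num)
    generalize n % 8 = r at hlt
    simp only [E8'_val, Finset.sum_range_succ, Finset.sum_range_zero]
    interval_cases r <;> norm_num [tc, ts] <;> ring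

theorem PE4 : PE 4 E4 0 2 where
  hr := Or.inr (Or.inl rfl)
  mul := by
    intro a b
    unfold E4
    push_cast
    rw [map_mul]
    push_cast
    rfl
  per := by
    intro a b
    rw [E4_mod, E4_mod a, Nat.add_mul_mod_self_right]
  one := by rw [E4_val]; norm_num
  cop := by
    intro a h
    rw [cop4] at h
    rw [E4_val]
    have : a % 4 = 1 ∨ a % 4 = 3 := by omega
    rcases this with h | h <;> simp [h]
  ncop := by
    intro a h
    rw [cop4] at h
    rw [E4_val, if_neg (by omega), if_neg (by omega)]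
  half := by
    intro d hd _
    rw [E4_val, if_neg, if_pos]
    · obtain ⟨k, hk⟩ := hd; omega
    · obtain ⟨k, hk⟩ := hd; omega
  gaussc := by
    intro n
    simp only [(tcs4 _ _).1]
    rw [E4_mod n]
    have hlt : n % 4 < 4 := Nat.mod_lt _ (by norm_num)
    generalize n % 4 = r at hlt
    simp only [E4_val, Finset.sum_range_succ, Finset.sum_range_zero]
    interval_cases r <;> norm_num [tc, ts]
  gausss := by
    intro n
    simp only [(tcs4 _ _).2]
    rw [E4_mod n]
    have hlt : n % 4 < 4 := Nat.mod_lt _ (by norm_num)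
    generalize n % 4 = r at hlt
    simp only [E4_val, Finset.sum_range_succ, Finset.sum_range_zero]
    interval_cases r <;> norm_num [tc, ts]

/-! ### reciprocity -/

theorem js_mul (a b : ℤ) (n : ℕ) : js (a * b) n = js a n * js b n := by
  unfold js
  rw [jacobiSym.mul_left]
  push_cast
  rfl

theorem js_two (m : ℕ) (hm : Odd m) : js 2 m = E8 m := by
  unfold js E8
  rw [jacobiSym.at_two hm]

theorem js_neg_one (m : ℕ) (hm : Odd m) : js (-1) m = E4 m := by
  unfold js E4
  rw [jacobiSym.at_neg_one hm]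

theorem rec1 (d m : ℕ) (hd : d % 4 = 1) (hm : Odd m) : js (d : ℤ) m = js (m : ℤ) d := by
  unfold js
  rw [jacobiSym.quadratic_reciprocity_one_mod_four hd hm]

theorem rec3 (d m : ℕ) (hd : d % 4 = 3) (hm : Odd m) : js (d : ℤ) m = E4 m * js (m : ℤ) d := by
  have hdo : Odd d := Nat.odd_iff.2 (by omega)
  rcases Nat.odd_mod_four_iff.1 (Nat.odd_iff.1 hm) with hm4 | hm4
  · rw [← rec1 m d hm4 hdo, E4_val, if_pos hm4, one_mul]
  · rw [E4_val, if_neg (by omega), if_pos hm4]
    unfold js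
    rw [jacobiSym.quadratic_reciprocity_three_mod_four hd hm4]
    push_cast
    ring

theorem E4_sq (m : ℕ) (hm : Odd m) : E4 m * E4 m = 1 := by
  have : m % 4 = 1 ∨ m % 4 = 3 := by obtain ⟨k, hk⟩ := hm; omega
  rw [E4_val]
  rcases this with h | h <;> simp [h]

theorem E8_mul_E4 (m : ℕ) : E8 m * E4 m = E8' m := by
  rw [E8_val, E4_val, E8'_val]
  have h8 : m % 8 < 8 := Nat.mod_lt _ (by norm_num)
  have h4 : m % 4 = (m % 8) % 4 := by omega
  rw [h4]
  generalize m % 8 = r at h8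
  interval_cases r <;> norm_num

/-- the complete description of a family at `d` -/
structure DD (φ : FD) (d : ℕ) (E : ℕ → ℝ) (gc gs hc hs : ℝ) : Prop where
  odd : Odd d
  pe : PE φ.r E gc gs
  ne1 : φ.r * d ≠ 1
  val : ∀ n : ℕ, n ≠ 0 → cf φ d n = E n * js (n : ℤ) d
  dc : Squarefree d → ∀ n : ℕ, Cs (n : ℤ) d = hc * js (n : ℤ) d
  ds : Squarefree d → ∀ n : ℕ, Sn (n : ℤ) d = hs * js (n : ℤ) d
  a0 : φ.a = 0 → E d * js φ.r d * (gc * hc - gs * hs) = Real.sqrt (φ.r * d) ∧
    gs * hc + gc * hs = 0 ∧ E (φ.r - 1) * js (-1) d = 1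
  a1 : φ.a = 1 → E d * js φ.r d * (gs * hc + gc * hs) = Real.sqrt (φ.r * d) ∧
    gc * hc - gs * hs = 0 ∧ E (φ.r - 1) * js (-1) d = -1
  a01 : φ.a = 0 ∨ φ.a = 1

theorem dcs1 (d : ℕ) (hd : d % 4 = 1) : (Squarefree d → ∀ n : ℕ, Cs (n : ℤ) d = Real.sqrt d * js (n : ℤ) d) ∧
    (Squarefree d → ∀ n : ℕ, Sn (n : ℤ) d = 0 * js (n : ℤ) d) := by
  have hdo : Odd d := Nat.odd_iff.2 (by omega)
  constructor
  · intro hs n
    have h := Gk_sqf d hdo hs n
    rw [Gk_eq, Sn_zero n d hd, add_zero] at h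
    rw [h, mul_comm]
  · intro hs n
    rw [Sn_zero n d hd, zero_mul]

theorem dcs3 (d : ℕ) (hd : d % 4 = 3) : (Squarefree d → ∀ n : ℕ, Cs (n : ℤ) d = 0 * js (n : ℤ) d) ∧
    (Squarefree d → ∀ n : ℕ, Sn (n : ℤ) d = Real.sqrt d * js (n : ℤ) d) := by
  have hdo : Odd d := Nat.odd_iff.2 (by omega)
  constructor
  · intro hs n
    rw [Cs_zero n d hd, zero_mul]
  · intro hs n
    have h := Gk_sqf d hdo hs n
    rw [Gk_eq, Cs_zero n d hd, zero_add] at h
    rw [h, mul_comm]

/-- values for `η = 0` -/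
theorem cf_zero (φ : FD) (hη : φ.η = 0) (d : ℕ) (E : ℕ → ℝ) (hE : ∀ a, a % 2 = 0 → E a = 0)
    (h : ∀ n, Odd n → js (φ.e * (d : ℤ)) n = E n * js (n : ℤ) d) (n : ℕ) (hn : n ≠ 0) :
    cf φ d n = E n * js (n : ℤ) d := by
  unfold cf
  rcases Nat.even_or_odd n with he | ho
  · have h2 : n.factorization 2 ≠ 0 := by
      have := (Nat.prime_two.factorization_pos_of_dvd hn he.two_dvd)
      omega
    rw [hη, zero_pow h2, zero_mul, hE n (Nat.even_iff.1 he), zero_mul]
  · have h2 : n.factorization 2 = 0 := by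
      apply Nat.factorization_eq_zero_of_not_dvd
      intro h3
      have := Nat.odd_iff.1 ho
      omega
    rw [h2, pow_zero, pow_zero, one_mul, Nat.div_one, jo, if_pos ho, h n ho]

/-- values for `r = 1` -/
theorem cf_one (φ : FD) (d : ℕ) (h2 : js 2 d = φ.η)
    (h : ∀ n, Odd n → js (φ.e * (d : ℤ)) n = js (n : ℤ) d) (n : ℕ) (hn : n ≠ 0) :
    cf φ d n = 1 * js (n : ℤ) d := by
  unfold cf
  set k := n.factorization 2 with hk
  have h3 : n = 2 ^ k * (n / 2 ^ k) := (Nat.ordProj_mul_ordCompl_eq_self n 2).symm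
  have h4 : Odd (n / 2 ^ k) := by
    rw [← Nat.not_even_iff_odd, even_iff_two_dvd]
    exact Nat.not_dvd_ordCompl Nat.prime_two hn
  rw [one_mul, jo, if_pos h4, h _ h4]
  conv_rhs => rw [h3]
  push_cast
  rw [js_mul]
  congr 1
  rw [← h2]
  unfold js
  rw [jacobiSym.pow_left]
  push_cast
  rfl

theorem E8_odd_sq (m : ℕ) (hm : Odd m) : E8 m * E8 m = 1 := by
  have : m % 8 = 1 ∨ m % 8 = 3 ∨ m % 8 = 5 ∨ m % 8 = 7 := by obtain ⟨k, hk⟩ := hm; omega
  rw [E8_val]
  rcases this with h | h | h | h <;> simp [h]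

theorem js_eight (m : ℕ) (hm : Odd m) : js 8 m = E8 m := by
  rw [show (8 : ℤ) = 2 * (2 * 2) by norm_num, js_mul, js_mul, js_two m hm, E8_odd_sq m hm, mul_one]

theorem js_four (m : ℕ) (hm : Odd m) : js 4 m = 1 := by
  rw [show (4 : ℤ) = 2 * 2 by norm_num, js_mul, js_two m hm, E8_odd_sq m hm]

theorem js_1 (m : ℕ) : js 1 m = 1 := by
  unfold js
  rw [jacobiSym.one_left]
  simp

theorem sqrt8 (d : ℕ) : Real.sqrt (((8 : ℕ) : ℝ) * d) = 2 * Real.sqrt 2 * Real.sqrt d := by
  push_cast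
  rw [show (8 * (d : ℝ)) = 2 ^ 2 * (2 * d) by ring, Real.sqrt_mul (by positivity),
      Real.sqrt_sq (by norm_num), Real.sqrt_mul (by norm_num)]
  ring

theorem sqrt4 (d : ℕ) : Real.sqrt (((4 : ℕ) : ℝ) * d) = 2 * Real.sqrt d := by
  push_cast
  rw [show (4 * (d : ℝ)) = 2 ^ 2 * d by ring, Real.sqrt_mul (by positivity),
      Real.sqrt_sq (by norm_num)]

theorem sqrt1 (d : ℕ) : Real.sqrt (((1 : ℕ) : ℝ) * d) = Real.sqrt d := by
  push_cast
  rw [one_mul]

theorem data (φ : FD) (hφ : Fam φ) (d : ℕ) (hd : φ.A d) :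
    ∃ (E : ℕ → ℝ) (gc gs hc hs : ℝ), DD φ d E gc gs hc hs := by
  obtain ⟨ε, hε, h | h | h | h⟩ := hφ
  · -- `8 d`
    subst h
    have hdo : Odd d := hd
    have h8e : ∀ a, a % 2 = 0 → E8 a = 0 := by
      intro a ha
      rw [E8_val, if_neg (by omega), if_neg (by omega)]
    have h8e' : ∀ a, a % 2 = 0 → E8' a = 0 := by
      intro a ha
      rw [E8'_val, if_neg (by omega), if_neg (by omega)]
    rcases hε with rfl | rfl
    · rcases Nat.odd_mod_four_iff.1 (Nat.odd_iff.1 hdo) with hd4 | hd4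
      · refine ⟨E8, 2 * Real.sqrt 2, 0, Real.sqrt d, 0, ⟨hdo, PE8, ?_, ?_, (dcs1 d hd4).1, (dcs1 d hd4).2,
          ?_, ?_, Or.inl rfl⟩⟩
        · show 8 * d ≠ 1
          omega
        · refine cf_zero (F8 1) rfl d E8 h8e fun n hn => ?_
          show js (2 * 1 * (d : ℤ)) n = _
          rw [mul_one, js_mul, js_two n hn, rec1 d n hd4 hn]
        · intro _
          show E8 d * js ((8 : ℕ) : ℤ) d * _ = Real.sqrt (((8 : ℕ) : ℝ) * d) ∧ _ ∧ E8 7 * _ = 1
          rw [sqrt8]
          refine ⟨?_, by ring, ?_⟩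
          · rw [show ((8 : ℕ) : ℤ) = 8 by norm_num, js_eight d hdo, E8_odd_sq d hdo]
            ring
          · rw [js_neg_one d hdo, E8_val, E4_val, if_pos hd4]
            norm_num
        · intro h
          exact absurd h (by norm_num [F8])
      · refine ⟨E8', 0, 2 * Real.sqrt 2, 0, Real.sqrt d, ⟨hdo, PE8', ?_, ?_, (dcs3 d hd4).1, (dcs3 d hd4).2,
          ?_, ?_, Or.inl rfl⟩⟩
        · show 8 * d ≠ 1
          omega
        · refine cf_zero (F8 1) rfl d E8' h8e' fun n hn => ?_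
          show js (2 * 1 * (d : ℤ)) n = _
          rw [mul_one, js_mul, js_two n hn, rec3 d n hd4 hn, ← E8_mul_E4]
          ring
        · intro _
          show E8' d * js ((8 : ℕ) : ℤ) d * _ = Real.sqrt (((8 : ℕ) : ℝ) * d) ∧ _ ∧ E8' 7 * _ = 1
          rw [sqrt8]
          refine ⟨?_, by ring, ?_⟩
          · rw [show ((8 : ℕ) : ℤ) = 8 by norm_num, js_eight d hdo, ← E8_mul_E4]
            have h1 := E8_odd_sq d hdo
            have h2 : E4 d = -1 := by rw [E4_val, if_neg (by omega), if_pos hd4]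
            rw [h2]
            linear_combination (2 * Real.sqrt 2 * Real.sqrt d) * h1
          · rw [js_neg_one d hdo, E8'_val, E4_3 d hd4]
            norm_num
        · intro h
          exact absurd h (by norm_num [F8])
    · rcases Nat.odd_mod_four_iff.1 (Nat.odd_iff.1 hdo) with hd4 | hd4
      · refine ⟨E8', 0, 2 * Real.sqrt 2, Real.sqrt d, 0, ⟨hdo, PE8', ?_, ?_, (dcs1 d hd4).1, (dcs1 d hd4).2,
          ?_, ?_, Or.inr rfl⟩⟩
        · show 8 * d ≠ 1
          omega
        · refine cf_zero (F8 (-1)) rfl d E8' h8e' fun n hn => ?_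
          show js (2 * (-1) * (d : ℤ)) n = _
          rw [js_mul, js_mul, js_two n hn, js_neg_one n hn, rec1 d n hd4 hn, ← E8_mul_E4]
        · intro h
          exact absurd h (by norm_num [F8])
        · intro _
          show E8' d * js ((8 : ℕ) : ℤ) d * _ = Real.sqrt (((8 : ℕ) : ℝ) * d) ∧ _ ∧ E8' 7 * _ = -1
          rw [sqrt8]
          refine ⟨?_, by ring, ?_⟩
          · rw [show ((8 : ℕ) : ℤ) = 8 by norm_num, js_eight d hdo, ← E8_mul_E4]
            have h1 := E8_odd_sq d hdo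
            have h2 : E4 d = 1 := by rw [E4_val, if_pos hd4]
            rw [h2]
            linear_combination (2 * Real.sqrt 2 * Real.sqrt d) * h1
          · rw [js_neg_one d hdo, E8'_val, E4_val, if_pos hd4]
            norm_num
      · refine ⟨E8, 2 * Real.sqrt 2, 0, 0, Real.sqrt d, ⟨hdo, PE8, ?_, ?_, (dcs3 d hd4).1, (dcs3 d hd4).2,
          ?_, ?_, Or.inr rfl⟩⟩
        · show 8 * d ≠ 1
          omega
        · refine cf_zero (F8 (-1)) rfl d E8 h8e fun n hn => ?_
          show js (2 * (-1) * (d : ℤ)) n = _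
          rw [js_mul, js_mul, js_two n hn, js_neg_one n hn, rec3 d n hd4 hn]
          have h1 := E4_sq n hn
          linear_combination (E8 n * js (n : ℤ) d) * h1
        · intro h
          exact absurd h (by norm_num [F8])
        · intro _
          show E8 d * js ((8 : ℕ) : ℤ) d * _ = Real.sqrt (((8 : ℕ) : ℝ) * d) ∧ _ ∧ E8 7 * _ = -1
          rw [sqrt8]
          refine ⟨?_, by ring, ?_⟩
          · rw [show ((8 : ℕ) : ℤ) = 8 by norm_num, js_eight d hdo, E8_odd_sq d hdo]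
            ring
          · rw [js_neg_one d hdo, E8_val, E4_3 d hd4]
            norm_num
  · -- `4 d`
    subst h
    have hd' : (ε * (d : ℤ)) % 4 = 3 := hd
    have h4e : ∀ a, a % 2 = 0 → E4 a = 0 := by
      intro a ha
      rw [E4_val, if_neg (by omega), if_neg (by omega)]
    rcases hε with rfl | rfl
    · have hd4 : d % 4 = 3 := by omega
      have hdo : Odd d := Nat.odd_iff.2 (by omega)
      refine ⟨E4, 0, 2, 0, Real.sqrt d, ⟨hdo, PE4, ?_, ?_, (dcs3 d hd4).1, (dcs3 d hd4).2,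
          ?_, ?_, Or.inl rfl⟩⟩
      · show 4 * d ≠ 1
        omega
      · refine cf_zero (F4 1) rfl d E4 h4e fun n hn => ?_
        show js (1 * (d : ℤ)) n = _
        rw [one_mul, rec3 d n hd4 hn]
      · intro _
        show E4 d * js ((4 : ℕ) : ℤ) d * _ = Real.sqrt (((4 : ℕ) : ℝ) * d) ∧ _ ∧ E4 3 * _ = 1
        rw [sqrt4]
        refine ⟨?_, by ring, ?_⟩
        · rw [show ((4 : ℕ) : ℤ) = 4 by norm_num, js_four d hdo, E4_val, if_neg (by omega), if_pos hd4]
          ring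
        · rw [js_neg_one d hdo, E4_val, E4_val, if_neg (by omega), if_pos (by norm_num), if_neg (by omega),
            if_pos hd4]
          norm_num
      · intro h
        exact absurd h (by norm_num [F4])
    · have hd4 : d % 4 = 1 := by omega
      have hdo : Odd d := Nat.odd_iff.2 (by omega)
      refine ⟨E4, 0, 2, Real.sqrt d, 0, ⟨hdo, PE4, ?_, ?_, (dcs1 d hd4).1, (dcs1 d hd4).2,
          ?_, ?_, Or.inr rfl⟩⟩
      · show 4 * d ≠ 1
        omega
      · refine cf_zero (F4 (-1)) rfl d E4 h4e fun n hn => ?_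
        show js (-1 * (d : ℤ)) n = _
        rw [js_mul, js_neg_one n hn, rec1 d n hd4 hn]
      · intro h
        exact absurd h (by norm_num [F4])
      · intro _
        show E4 d * js ((4 : ℕ) : ℤ) d * _ = Real.sqrt (((4 : ℕ) : ℝ) * d) ∧ _ ∧ E4 3 * _ = -1
        rw [sqrt4]
        refine ⟨?_, by ring, ?_⟩
        · rw [show ((4 : ℕ) : ℤ) = 4 by norm_num, js_four d hdo, E4_val, if_pos hd4]
          ring
        · rw [js_neg_one d hdo, E4_val, E4_val, if_neg (by omega), if_pos (by norm_num), if_pos hd4]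
          norm_num
  all_goals
    subst h
    have hd' := hd.1
    have hd'' := hd.2
    have hne : 1 * d ≠ 1 := by
      rw [one_mul]
      rintro rfl
      rcases hε with rfl | rfl
      · exact hd'' ⟨1, by norm_num [F1]⟩
      · have h0 : (-1 * ((1 : ℕ) : ℤ)) % 8 = 7 := by norm_num
        have h1 : (-1 * ((1 : ℕ) : ℤ)) % 8 = 1 ∨ (-1 * ((1 : ℕ) : ℤ)) % 8 = 5 := by
          first | exact Or.inl hd' | exact Or.inr hd'
        omega
  · have hd3 : (ε * (d : ℤ)) % 8 = 1 := hd'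
    rcases hε with rfl | rfl
    · have hd4 : d % 4 = 1 := by omega
      have hdo : Odd d := Nat.odd_iff.2 (by omega)
      refine ⟨fun _ => 1, 1, 0, Real.sqrt d, 0, ⟨hdo, PE1, hne, ?_, (dcs1 d hd4).1, (dcs1 d hd4).2,
          ?_, ?_, Or.inl rfl⟩⟩
      · refine cf_one (F1 1 1) d ?_ fun n hn => ?_
        · rw [js_two d hdo, E8_val, if_pos (by omega)]
          show (1 : ℝ) = if (1 : ℤ) = 1 then 1 else -1
          norm_num
        · show js (1 * (d : ℤ)) n = _
          rw [one_mul, rec1 d n hd4 hn]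
      · intro _
        show 1 * js ((1 : ℕ) : ℤ) d * _ = Real.sqrt (((1 : ℕ) : ℝ) * d) ∧ _ ∧ 1 * _ = (1 : ℝ)
        rw [sqrt1]
        refine ⟨?_, by ring, ?_⟩
        · rw [show ((1 : ℕ) : ℤ) = 1 by norm_num, js_1]
          ring
        · rw [js_neg_one d hdo, E4_val, if_pos hd4]
          norm_num
      · intro h
        exact absurd h (by norm_num [F1])
    · have hd4 : d % 4 = 3 := by omega
      have hdo : Odd d := Nat.odd_iff.2 (by omega)
      refine ⟨fun _ => 1, 1, 0, 0, Real.sqrt d, ⟨hdo, PE1, hne, ?_, (dcs3 d hd4).1, (dcs3 d hd4).2,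
          ?_, ?_, Or.inr rfl⟩⟩
      · refine cf_one (F1 (-1) 1) d ?_ fun n hn => ?_
        · rw [js_two d hdo, E8_val, if_pos (by omega)]
          show (1 : ℝ) = if (1 : ℤ) = 1 then 1 else -1
          norm_num
        · show js (-1 * (d : ℤ)) n = _
          rw [js_mul, js_neg_one n hn, rec3 d n hd4 hn]
          have h1 := E4_sq n hn
          linear_combination (js (n : ℤ) d) * h1
      · intro h
        exact absurd h (by norm_num [F1])
      · intro _
        show 1 * js ((1 : ℕ) : ℤ) d * _ = Real.sqrt (((1 : ℕ) : ℝ) * d) ∧ _ ∧ 1 * _ = (-1 : ℝ)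
        rw [sqrt1]
        refine ⟨?_, by ring, ?_⟩
        · rw [show ((1 : ℕ) : ℤ) = 1 by norm_num, js_1]
          ring
        · rw [js_neg_one d hdo, E4_val, if_neg (by omega), if_pos hd4]
          norm_num
  · have hd3 : (ε * (d : ℤ)) % 8 = 5 := hd'
    rcases hε with rfl | rfl
    · have hd4 : d % 4 = 1 := by omega
      have hdo : Odd d := Nat.odd_iff.2 (by omega)
      refine ⟨fun _ => 1, 1, 0, Real.sqrt d, 0, ⟨hdo, PE1, hne, ?_, (dcs1 d hd4).1, (dcs1 d hd4).2,
          ?_, ?_, Or.inl rfl⟩⟩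
      · refine cf_one (F1 1 5) d ?_ fun n hn => ?_
        · rw [js_two d hdo, E8_val, if_neg (by omega), if_pos (by omega)]
          show (-1 : ℝ) = if (5 : ℤ) = 1 then 1 else -1
          norm_num
        · show js (1 * (d : ℤ)) n = _
          rw [one_mul, rec1 d n hd4 hn]
      · intro _
        show 1 * js ((1 : ℕ) : ℤ) d * _ = Real.sqrt (((1 : ℕ) : ℝ) * d) ∧ _ ∧ 1 * _ = (1 : ℝ)
        rw [sqrt1]
        refine ⟨?_, by ring, ?_⟩
        · rw [show ((1 : ℕ) : ℤ) = 1 by norm_num, js_1]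
          ring
        · rw [js_neg_one d hdo, E4_val, if_pos hd4]
          norm_num
      · intro h
        exact absurd h (by norm_num [F1])
    · have hd4 : d % 4 = 3 := by omega
      have hdo : Odd d := Nat.odd_iff.2 (by omega)
      refine ⟨fun _ => 1, 1, 0, 0, Real.sqrt d, ⟨hdo, PE1, hne, ?_, (dcs3 d hd4).1, (dcs3 d hd4).2,
          ?_, ?_, Or.inr rfl⟩⟩
      · refine cf_one (F1 (-1) 5) d ?_ fun n hn => ?_
        · rw [js_two d hdo, E8_val, if_neg (by omega), if_pos (by omega)]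
          show (-1 : ℝ) = if (5 : ℤ) = 1 then 1 else -1
          norm_num
        · show js (-1 * (d : ℤ)) n = _
          rw [js_mul, js_neg_one n hn, rec3 d n hd4 hn]
          have h1 := E4_sq n hn
          linear_combination (js (n : ℤ) d) * h1
      · intro h
        exact absurd h (by norm_num [F1])
      · intro _
        show 1 * js ((1 : ℕ) : ℤ) d * _ = Real.sqrt (((1 : ℕ) : ℝ) * d) ∧ _ ∧ 1 * _ = (-1 : ℝ)
        rw [sqrt1]
        refine ⟨?_, by ring, ?_⟩
        · rw [show ((1 : ℕ) : ℤ) = 1 by norm_num, js_1]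
          ring
        · rw [js_neg_one d hdo, E4_val, if_neg (by omega), if_pos hd4]
          norm_num

end

end Pool.Agent.H328R9.RG
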